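import Pool.Agent.Q298.EF.LinOne
import Pool.Agent.Y191.CycNv

/-!
# Abundance for fibre products of cyclic covers over the image of a powerful linear system

Let `X` be a projective variety with canonical singularities of dimension `d + e`, for instance a
manifold, and `|V|` a linear system on `X` without fixed components, of dimension `n = d + k`, whose
rational map `X ⇢ ℙⁿ` has an image `Y` of dimension `d ≥ 1`; `Y` may be any nondegenerate variety of
dimension `d`, for instance rational. Suppose:

* (the members) `D i` (`i < q`) are finitely many members of `|V|`, in arbitrary position, which span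
  `V`, and `V` is not the direct sum of two nonzero subspaces such that each `D i` belongs to one of
  them; at every prime divisor `P` of `X` which is a component of some `D i`, some `D i'` has the
  multiplicity at least `s`, where `2 s > R (k + 1) (k + 2)` with `R = n + 2`, or `R = n + 1` if
  there are at least `n + 3` different members;
* (the fibres) let `F` be the algebraic closure of the function field of `Y` in `ℂ(X)`, the function
  field of a variety `Y'`: `X` is birational to the fibre product over `Y'` of `e` arbitrary cyclic
  covers of `Y' × ℙ¹`, that is `ℂ(X)` is generated over `F` by `x j`, `z j`, `j < e`, the `x j` are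
  algebraically independent over `F` and

  `z j ^ m j = c j * ∏ l, g j l (x j) ^ a j l`, `m j ≥ 1`, `a j l ≥ 0`, `c j ≠ 0` in `F`,

  where the `g j l` are polynomials over `F`, `g j l` of degree `b j l`, square free and pairwise
  without common roots (for given `j`).

Let `W j = ∑ l, b j l * (1 - gcd (m j, a j l) / m j) + 1 - gcd (m j, ∑ l, a j l * b j l) / m j`; if
`C j` is the curve over `F` given by the `j`-th equation, of genus `g j`, and of degree `n j` over the
line, then `2 g j - 2 = n j * (W j - 2)`. Then `κ(X) = ν(X)`: both are `-∞` if `W j < 2` (`g j = 0`)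
for some `j`, and otherwise both are equal to `d` plus the number of the `j` with `W j > 2`
(`g j ≥ 2`). The moduli of the curves may vary, and there is no condition on the base `Y'`, on the
discriminants or on the ramification. So if `K_X` is nef then `κ(X) = ν(X) ≥ d`.

The language and the definitions of `Pool.Agent.Y172` are used: `X` is given by the homogeneous
coordinates `y` of its generic point, with values in the function field `K` of `X`; the prime divisors
of `X` are places `P` of `K`, `P.ord` is the order along `P`. The linear system is given by the finite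
dimensional space `V` of rational functions: if `a` is the minimum of the orders at `P` of the
members of `V` then the multiplicity of `P` in the divisor of the system which is given by `f ∈ V` is
`P.ord f - a`. `kodairaDim` and `numericalDim` are the literal definitions, the latter with respect
to any effective integral divisor `A`.

Proof: the forms along the fibres (`Pool.Agent.Y191.cyc_low`, products of determinants of
logarithmic derivatives over the field of the branch points, descended to `X`) are multiplied with
generalised Wronskians of the linear system (`Pool.Agent.TH585.SV.lin_fib`): this gives the lower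
bound for the Kodaira dimension. The upper bounds are those of `Pool.Agent.Y191.cyc_can`.
-/

set_option autoImplicit false

open FF Pool.Agent.W602.GT Pool.Agent.Y172 Pool.Agent.Y191

namespace Pool.Agent.Results.MP_c2a5fc_ag.CyclicFibreProducts

section

variable {K : Type} [Field K] [Algebra ℂ K] {N : ℕ}

/-- `X` is a projective variety of dimension `n` with canonical singularities, `y` is its generic
point. -/
def IsCanonicalVariety (y : Fin (N + 1) → K) (n : ℕ) : Prop :=
  NormalModel y ∧ Algebra.trdeg ℂ K = n ∧ Canonical y n

/-- The function field of the image of the rational map which is given by the linear system `V`: the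
field generated by the quotients of the members. -/
noncomputable def ImageField (V : Submodule ℂ K) : IntermediateField ℂ K :=
  IntermediateField.adjoin ℂ {y : K | ∃ f ∈ V, ∃ g ∈ V, y = f / g}

/-- `V` is the direct sum of two nonzero subspaces such that each `φ i` belongs to one of them. -/
def Splits {q : ℕ} (V : Submodule ℂ K) (φ : Fin q → K) : Prop :=
  ∃ V1 V2 : Submodule ℂ K, V1 ≠ ⊥ ∧ V2 ≠ ⊥ ∧ Disjoint V1 V2 ∧ V1 ⊔ V2 = V ∧
    ∀ i, φ i ∈ V1 ∨ φ i ∈ V2

/-- There are `r` members `φ i` of which no two are proportional. -/
def Different (r : ℕ) {q : ℕ} (φ : Fin q → K) : Prop :=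
  ∃ τ : Fin r → Fin q, ∀ i j, i ≠ j → ∀ t : ℂ, φ (τ i) ≠ t • φ (τ j)

/-- The condition on the multiplicities: if the prime divisor `P` of `X` is a component of one of the
divisors `D i` (the order of `φ i` at `P` is not the minimum `a` of the orders of the members of
`V`), then some `D i` has multiplicity at least `s` at `P`. -/
def Multiplicities (y : Fin (N + 1) → K) {q : ℕ} (V : Submodule ℂ K) (φ : Fin q → K)
    (s : ℕ) : Prop :=
  ∀ P, IsPrimeDivisor y P → ∀ a : ℤ, (∀ f ∈ V, f = 0 ∨ a ≤ P.ord f) →
    (∃ f ∈ V, f ≠ 0 ∧ P.ord f = a) → (∃ i, P.ord (φ i) ≠ a) → ∃ i, a + s ≤ P.ord (φ i)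

/-- Let `F` be the algebraic closure of `L` in `K`. The field `K` is generated over `F` by elements
`x j`, `z j` with `z j ^ m j = c j * ∏ l, g j l (x j) ^ a j l`, where the `x j` are algebraically
independent over `F`, `m j ≥ 1`, `c j` is a nonzero element of `F`, and the `g j l` are polynomials
over `F` of degree `b j l`, square free and pairwise without common roots for given `j`. -/
def CyclicFibres (L : IntermediateField ℂ K) {e : ℕ} (m t : Fin e → ℕ)
    (b a : ∀ j, Fin (t j) → ℕ) : Prop :=
  ∃ (x z c : Fin e → K) (g : ∀ j, Fin (t j) → Polynomial (acl ℂ (L : Set K))),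
    CycData (acl ℂ (L : Set K)) x z m t g a c ∧ ∀ j l, (g j l).natDegree = b j l

end

/-- `W = ∑ l, b l * (1 - gcd (m, a l) / m) + 1 - gcd (m, ∑ l, a l * b l) / m` -/
def weight (m : ℕ) {t : ℕ} (b a : Fin t → ℕ) : ℚ :=
  ∑ l, b l * (1 - (m.gcd (a l) : ℚ) / m) + (1 - (m.gcd (∑ l, a l * b l) : ℚ) / m)

/-- The Kodaira dimension and the numerical dimension (with respect to any effective integral divisor
`A`) of `X` are equal: they are `-∞` if `W j < 2` for some `j`, and otherwise equal to `d` plus the
number of the `j` with `W j > 2`. -/
def Abundance {K : Type} [Field K] [Algebra ℂ K] {N : ℕ} (y : Fin (N + 1) → K) (n d : ℕ) {e : ℕ}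
    (W : Fin e → ℚ) : Prop :=
  ((∃ j, W j < 2) → kodairaDim y n 0 = ⊥ ∧ ∀ A, Effective y A → numericalDim y n 0 A = ⊥) ∧
  ((∀ j, 2 ≤ W j) →
    kodairaDim y n 0 = ((d + (Finset.univ.filter fun j => 2 < W j).card : ℕ) : WithBot ℕ) ∧
    ∀ A, Effective y A → Integral y A →
      numericalDim y n 0 A = ((d + (Finset.univ.filter fun j => 2 < W j).card : ℕ) : EReal))

theorem wsum_eq {K : Type} [Field K] [Algebra ℂ K] {F : IntermediateField ℂ K} {e : ℕ}
    {m s : Fin e → ℕ} {g : ∀ j, Fin (s j) → Polynomial F} {a d : ∀ j, Fin (s j) → ℕ}
    (hd : ∀ j k, (g j k).natDegree = d j k) (j : Fin e) :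
    wsum m s g a j = weight (m j) (d j) (a j) := by
  unfold wsum weight wtc
  simp only [hd]

/-- the number of large weights -/
theorem exists_idx {e : ℕ} (W : Fin e → ℚ) :
    ∃ κ : Fin (Finset.univ.filter fun j => 2 < W j).card → Fin e, Function.Injective κ ∧
      ∀ i, 2 < W (κ i) := by
  classical
  let φ := (Finset.univ.filter fun j => 2 < W j).equivFin
  exact ⟨fun i => (φ.symm i : Fin e), fun a b hab => φ.symm.injective (Subtype.ext hab),
    fun i => (Finset.mem_filter.1 (φ.symm i).2).2⟩

/-- **Abundance.** Let `X` be a projective variety with canonical singularities of dimension `d + e`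
with generic point `y`, `V` a linear system of dimension `d + k` on `X` whose rational map has an
image `Y` of dimension `d ≥ 1`; `φ i` nonzero members which span `V`, such that `V` does not split
into a direct sum, `R = d + k + 2`, or `R = d + k + 1` if there are `d + k + 3` different members,
and `s` a number with `2 s > R (k + 1) (k + 2)` for which the condition on the multiplicities holds.
Let `X` be birational to a fibre product of `e` cyclic covers as in `CyclicFibres`, over the function
field of `Y`. Then `κ(X) = ν(X)`, equal to `-∞` if `W j < 2` for some `j`, and otherwise equal to `d`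
plus the number of the `j` with `W j > 2`. -/
theorem result (d e k q N : ℕ) (hd : 1 ≤ d) (K : Type) [Field K] [Algebra ℂ K]
    (y : Fin (N + 1) → K) (hy : IsCanonicalVariety y (d + e))
    (V : Submodule ℂ K) (hn : Module.finrank ℂ V = d + k + 1)
    (hV : Algebra.trdeg ℂ (ImageField V) = d)
    (φ : Fin q → K) (hφ0 : ∀ i, φ i ≠ 0) (hφ : Submodule.span ℂ (Set.range φ) = V)
    (hγ : ¬ Splits V φ)
    (R : ℕ) (hR : R = d + k + 2 ∨ (Different (d + k + 3) φ ∧ R = d + k + 1))
    (s : ℕ) (hs : R * ((k + 1) * (k + 2)) < 2 * s) (h : Multiplicities y V φ s)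
    (m t : Fin e → ℕ) (b a : ∀ j, Fin (t j) → ℕ) (hc : CyclicFibres (ImageField V) m t b a) :
    Abundance y (d + e) d fun j => weight (m j) (b j) (a j) := by
  classical
  obtain ⟨x, z, c, g, hc, hb⟩ := hc
  obtain ⟨hm, hK, hcan⟩ := hy
  obtain ⟨h1, h2⟩ := cyc_can hm hK hcan (acl_closed (ImageField V : Set K)) hc
  simp only [wsum_eq hb] at h1 h2
  refine ⟨h1, fun hws => ?_⟩
  obtain ⟨κ, hκ, hκs⟩ := exists_idx fun j => weight (m j) (b j) (a j)
  obtain ⟨M, hM, θ, hθ, hne⟩ := cyc_low (N := d + e) hc
    (fun j => by rw [wsum_eq hb]; exact hws j) hκ (fun i => by rw [wsum_eq hb]; exact hκs i)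
    {P | IsPrimeDivisor y P}
  have hs' : (R : ℝ) * (((k : ℝ) + 1) * ((k : ℝ) + 2)) < 2 * (s : ℝ) := by exact_mod_cast hs
  refine h2 _ hws ?_ (Pool.Agent.Q298.EF.lin_one hd hK hn hV hφ0 hφ hγ hR {P | IsPrimeDivisor y P}
    (fun _ => 0) (fun _ => 0) (fun _ => 0) (fun _ _ => le_rfl) (fun _ _ => by simp) hs'
    (fun P hPX hPd a' ha' hb' hc' => by
      obtain ⟨i, h5⟩ := h P hPX a' ha' hb' hc'
      refine ⟨i, ?_⟩
      have h7 : (s : ℤ) ≤ P.ord (φ i) - a' := by omega
      have h8 : ((s : ℤ) : ℝ) ≤ ((P.ord (φ i) - a' : ℤ) : ℝ) := by exact_mod_cast h7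
      simpa using h8) hM (θ := θ) hθ hne)
  -- the numbers of the curves
  have h3 : (Finset.univ.filter fun j : Fin e => 2 < weight (m j) (b j) (a j)).card +
      (Finset.univ.filter fun j : Fin e => weight (m j) (b j) (a j) = 2).card = e := by
    have h4 := Finset.card_filter_add_card_filter_not (s := (Finset.univ : Finset (Fin e)))
      (fun j => 2 < weight (m j) (b j) (a j))
    rw [Finset.card_univ, Fintype.card_fin] at h4
    have h5 : (Finset.univ.filter fun j : Fin e => ¬ 2 < weight (m j) (b j) (a j)) =
        Finset.univ.filter fun j : Fin e => weight (m j) (b j) (a j) = 2 := by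
      refine Finset.filter_congr fun j _ => ?_
      constructor
      · exact fun h6 => le_antisymm (not_lt.1 h6) (hws j)
      · exact fun h6 => by rw [h6]; exact lt_irrefl _
    rw [h5] at h4
    exact h4
  beta_reduce
  omega

end Pool.Agent.Results.MP_c2a5fc_ag.CyclicFibreProducts
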