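import Pool.Agent.Q298.JS.Cyc

/-!
# Abundance for superelliptic fibrations over the image of several powerful linear systems

Let `X` be a projective manifold, or more generally let `(X, Δ)` be a projective klt pair, `Δ` a
`ℚ`-divisor, and let `|V_1|, ..., |V_c|` be linear systems on `X` without fixed components. Let `Y_j`
be the image of the rational map of `X` to the product of the first `j` projective spaces, a variety
of the dimension `d_1 + ... + d_j` with `d_j ≥ 1`; it need not be a product. Let `V_j` be of dimension
`n_j = d_j + k_j`. Suppose: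

* (position) for each `j`, the images of the general fibres of `X ⇢ Y_{j-1}` (of the Stein
  factorization) in the projective space of `V_j` are nondegenerate;
* (the members) `V_j` is spanned by finitely many members `D_i` of `|V_j|`, in arbitrary position, and
  `V_j` is not the direct sum of two nonzero subspaces such that each `D_i` belongs to one of them; at
  every prime divisor `P` of `X` which is a component of some `D_i`, some `D_i'` has the multiplicity
  at least `σ_j (1 - Δ_j,P)`, where `2 σ_j > R_j (k_j + 1) (k_j + 2)` with `R_j = n_j + 2`, or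
  `R_j = n_j + 1` if there are at least `n_j + 3` different members, and the `Δ_j` are effective with
  `∑ Δ_j ≤ Δ` (so `Δ_j = 0` if `Δ = 0`);
* (the fibres) the discrepancies of `(X, Δ)` along the divisors over `X` which dominate `Y = Y_c` are
  not negative (for instance `X` is smooth and `Δ = 0`); and the geometric generic fibre is a product
  of superelliptic curves: for some variety `Y''` with a generically finite map to `Y`, ramified
  anywhere, the main component of the fibre product `X ×_Y Y''` (its function field is `K' = K(α)`,
  where `α` is algebraic over the function field of `Y`) is birational to the fibre product over `Y'`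
  of `e` cyclic covers `z_j ^ m_j = G_j(x_j)` of `Y' × ℙ¹`, where `Y'` is generically finite over
  `Y''` (its function field is the algebraic closure of the one of `Y` in `K'`) and the `G_j` are
  arbitrary nonzero polynomials over it, `m_j ≥ 1`.

Let `W j` be the sum over all roots `b` of `G j` in an algebraic closure, of multiplicity `μ b`, of
`1 - gcd (m j, μ b) / m j`, plus `1 - gcd (m j, deg G j) / m j`; if `C j` is the `j`-th curve, of genus
`g j` and of degree `n j` over the line, then `2 g j - 2 = n j * (W j - 2)`. Then
`κ(K_X + Δ) = ν(K_X + Δ)`: both are `-∞` if `W j < 2` (`g j = 0`) for some `j`, and otherwise both are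
equal to `dim Y` plus the number of the `j` with `W j > 2` (`g j ≥ 2`). So if `K_X + Δ` is nef then it
is semiample (Kawamata).

The linear systems can be combined to the one linear system of their products, but for it the
condition on the multiplicities would be much stronger (`n + 1` is the product of the `n_j + 1`, and a
component of a member of one system only must have the high multiplicity for the combined system).
For `c = 1` this is `Pool.Agent.Results.MP_e23cd6_ag.SuperellipticFibrations`.

The language and the definitions of `Pool.Agent.Y172` are used: `X` is given by the homogeneous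
coordinates `y` of its generic point, with values in the function field `K` of `X`; the prime divisors
of `X` are places `P` of `K`, `P.ord` is the order along `P`. A linear system is given by a finite
dimensional space `V` of rational functions: if `a` is the minimum of the orders at `P` of the members
of `V` then the multiplicity of `P` in the divisor of the system which is given by `f ∈ V` is
`P.ord f - a`. `kodairaDim` and `numericalDim` are the literal definitions of the Kodaira dimension
and of the numerical dimension of `K_X + Δ`, the latter with respect to any effective integral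
divisor `A`. `acl ℂ S` is the field of the elements which are algebraic over `ℂ(S)`.

Proof. The forms along the fibres of `X ⇢ Y` are products of powers of determinants of logarithmic
derivatives of the `x_j - b` over the extension by the roots of the `G_j`, which descend to `X`
(`Pool.Agent.Q298.EF.cycg_low`). For `j = c, ..., 1` the forms along the fibres of `X ⇢ Y_j` are
multiplied with the generalised Wronskians of `V_j` with respect to vector fields which are tangent to
the fibres of `X ⇢ Y_{j-1}`; these do not vanish, as the members are linearly independent over the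
algebraic closure of the function field of `Y_{j-1}`, and the products are forms along the fibres of
`X ⇢ Y_{j-1}` with the right orders at all prime divisors of `X`, including the vertical ones
(`Pool.Agent.Q298.JS.lin_stage`). The upper bounds are those of `Pool.Agent.Q298.EF.cycp_ab`.
-/

set_option autoImplicit false

open FF Pool.Agent.W602.GT Pool.Agent.Y172 Pool.Agent.Y191 UniqueFactorizationMonoid

namespace Pool.Agent.Results.MP_c2a5fc_ag.SeveralSystemsSuperelliptic

section

variable {K : Type} [Field K] [Algebra ℂ K] {N : ℕ}

/-- `(X, Δ)` is a projective pair of dimension `n`: `X` is normal, with generic point `y`, and `Δ` is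
an effective `ℚ`-divisor. -/
def IsPair (y : Fin (N + 1) → K) (n : ℕ) (Δ : Place ℂ K → ℚ) : Prop :=
  NormalModel y ∧ Algebra.trdeg ℂ K = n ∧ Effective y Δ

/-- The function field of the image `Y_j` of `X` under the first `j` linear systems: the field which
is generated by the quotients of the members of each of them. -/
noncomputable def ImageField {c : ℕ} (V : Fin c → Submodule ℂ K) (j : ℕ) :
    IntermediateField ℂ K :=
  IntermediateField.adjoin ℂ {y : K | ∃ i : Fin c, (i : ℕ) < j ∧ ∃ f ∈ V i, ∃ g ∈ V i, y = f / g}

/-- `V` is the direct sum of two nonzero subspaces such that each `φ i` belongs to one of them. -/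
def Splits {q : ℕ} (V : Submodule ℂ K) (φ : Fin q → K) : Prop :=
  ∃ V1 V2 : Submodule ℂ K, V1 ≠ ⊥ ∧ V2 ≠ ⊥ ∧ Disjoint V1 V2 ∧ V1 ⊔ V2 = V ∧
    ∀ i, φ i ∈ V1 ∨ φ i ∈ V2

/-- There are `r` members `φ i` of which no two are proportional. -/
def Different (r : ℕ) {q : ℕ} (φ : Fin q → K) : Prop :=
  ∃ τ : Fin r → Fin q, ∀ i j, i ≠ j → ∀ t : ℂ, φ (τ i) ≠ t • φ (τ j)

/-- The condition on the multiplicities: if the prime divisor `P` of `X` is a component of one of the
divisors `D i` (the order of `φ i` at `P` is not the minimum `a` of the orders of the members of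
`V`), then some `D i` has multiplicity at least `σ (1 - Δ_P)` at `P`. -/
def Multiplicities (y : Fin (N + 1) → K) (Δ : Place ℂ K → ℚ) {q : ℕ} (V : Submodule ℂ K)
    (φ : Fin q → K) (σ : ℚ) : Prop :=
  ∀ P, IsPrimeDivisor y P → ∀ a : ℤ, (∀ f ∈ V, f = 0 ∨ a ≤ P.ord f) →
    (∃ f ∈ V, f ≠ 0 ∧ P.ord f = a) → (∃ i, P.ord (φ i) ≠ a) →
    ∃ i, σ * (1 - Δ P) ≤ ((P.ord (φ i) - a : ℤ) : ℚ)

/-- The hypotheses on the linear systems `V i` on the pair `(X, Δ)`. The dimension of `Y_j` is the sum
of the `d i` with `i < j`, `V i` has the dimension `d i + k i` as a linear system and, by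
`nondegenerate`, this remains true for the space which it spans over the algebraic closure of the
function field of the image under the previous linear systems. -/
structure PowerfulSystems (y : Fin (N + 1) → K) (Δ : Place ℂ K → ℚ) {c : ℕ} (d k : Fin c → ℕ)
    (V : Fin c → Submodule ℂ K) : Prop where
  pos : ∀ i, 1 ≤ d i
  dim : ∀ j ≤ c, Algebra.trdeg ℂ (ImageField V j) =
    (∑ i ∈ Finset.univ.filter (fun i : Fin c => (i : ℕ) < j), d i : ℕ)
  rank : ∀ i, Module.finrank ℂ (V i) = d i + k i + 1
  nondegenerate : ∀ i : Fin c, Module.finrank (acl ℂ (ImageField V i : Set K))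
    (Submodule.span (acl ℂ (ImageField V i : Set K)) (V i : Set K)) = d i + k i + 1
  members : ∃ Δ' : Fin c → Place ℂ K → ℚ,
    (∀ P, IsPrimeDivisor y P → (∀ i, 0 ≤ Δ' i P) ∧ ∑ i, Δ' i P ≤ Δ P) ∧
    ∀ i, ∃ (q : ℕ) (φ : Fin q → K) (R : ℕ) (σ : ℚ), (∀ j, φ j ≠ 0) ∧
      Submodule.span ℂ (Set.range φ) = V i ∧ ¬ Splits (V i) φ ∧
      (R = d i + k i + 2 ∨ (Different (d i + k i + 3) φ ∧ R = d i + k i + 1)) ∧
      (R * ((k i + 1) * (k i + 2)) : ℚ) < 2 * σ ∧ Multiplicities y (Δ' i) (V i) φ σ

/-- The log discrepancies of `(X, Δ)` along the divisors over `X` which dominate the variety with the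
function field `L` are at least `1`. -/
def CanonicalOver (y : Fin (N + 1) → K) (n : ℕ) (Δ : Place ℂ K → ℚ) (L : IntermediateField ℂ K) :
    Prop :=
  ∀ Q : Place ℂ K, Divisorial n Q → (∀ f ∈ L, f ≠ 0 → Q.ord f = 0) → LogDisc y n Δ Q 1

end

/-- The image of the subfield `L` of `K` in the extension `K'`. -/
noncomputable def Up {K : Type} (K' : Type) [Field K] [Field K'] [Algebra ℂ K] [Algebra ℂ K']
    [Algebra K K'] [IsScalarTower ℂ K K'] (L : IntermediateField ℂ K) : IntermediateField ℂ K' :=
  L.map (IsScalarTower.toAlgHom ℂ K K')

open Classical in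
/-- The sum over the roots `b` of `G` in an algebraic closure, of multiplicity `μ b`, of
`1 - gcd (m, μ b) / m`, plus `1 - gcd (m, deg G) / m`. Here `p` is one of the different irreducible
monic factors of `G`; it occurs `(normalizedFactors G).count p` times, and has `p.natDegree` roots. -/
noncomputable def weight {F : Type} [Field F] (m : ℕ) (G : Polynomial F) : ℚ :=
  ∑ p ∈ (normalizedFactors G).toFinset,
    (p.natDegree : ℚ) * (1 - (m.gcd ((normalizedFactors G).count p) : ℚ) / m) +
      (1 - (m.gcd G.natDegree : ℚ) / m)

/-- `K'` is the function field of the fibre product of the `e` cyclic covers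
`z j ^ m j = G j (x j)` of `Y' × ℙ¹`, where the function field of `Y'` is the algebraic closure
`acl ℂ L` of `L` in `K'`: the `G j` are nonzero polynomials over it, the `x j` are a transcendence
basis of `K'` over `L`, and `K'` is generated by `acl ℂ L` and the `x j` and `z j`. -/
def FibreProduct {e : ℕ} {K' : Type} [Field K'] [Algebra ℂ K'] (L : IntermediateField ℂ K')
    (m : Fin e → ℕ) (G : Fin e → Polynomial (acl ℂ (L : Set K'))) (x z : Fin e → K') : Prop :=
  (∀ j, 1 ≤ m j ∧ G j ≠ 0 ∧ z j ^ m j = Polynomial.aeval (x j) (G j)) ∧
    IsTranscendenceBasis L x ∧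
    IntermediateField.adjoin ℂ ((acl ℂ (L : Set K') : Set K') ∪ Set.range x ∪ Set.range z) = ⊤

/-- Some extension `K' = K (α)` of `K`, `α` algebraic over the subfield `L`, is the function field of
a fibre product of `e` cyclic covers with the numbers `W j`. -/
def SuperellipticFibres {K : Type} [Field K] [Algebra ℂ K] (L : IntermediateField ℂ K) {e : ℕ}
    (W : Fin e → ℚ) : Prop :=
  ∃ (K' : Type) (_ : Field K') (_ : Algebra ℂ K') (_ : Algebra K K') (_ : IsScalarTower ℂ K K')
    (α : K'), IsAlgebraic (Up K' L) α ∧ IntermediateField.adjoin K {α} = ⊤ ∧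
    ∃ (m : Fin e → ℕ) (G : Fin e → Polynomial (acl ℂ (Up K' L : Set K'))) (x z : Fin e → K'),
      FibreProduct (Up K' L) m G x z ∧ ∀ j, weight (m j) (G j) = W j

/-- The Kodaira dimension and the numerical dimension (with respect to any effective integral divisor
`A`) of `K_X + Δ` are equal: they are `-∞` if `W j < 2` for some `j`, and otherwise equal to `d` plus
the number of the `j` with `W j > 2`. -/
def Abundance {K : Type} [Field K] [Algebra ℂ K] {N : ℕ} (y : Fin (N + 1) → K) (n d : ℕ)
    (Δ : Place ℂ K → ℚ) {e : ℕ} (W : Fin e → ℚ) : Prop :=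
  ((∃ j, W j < 2) → kodairaDim y n Δ = ⊥ ∧ ∀ A, Effective y A → numericalDim y n Δ A = ⊥) ∧
  ((∀ j, 2 ≤ W j) →
    kodairaDim y n Δ = ((d + (Finset.univ.filter fun j => 2 < W j).card : ℕ) : WithBot ℕ) ∧
    ∀ A, Effective y A → Integral y A →
      numericalDim y n Δ A = ((d + (Finset.univ.filter fun j => 2 < W j).card : ℕ) : EReal))

/-- **Abundance.** Let `(X, Δ)` be a projective pair with generic point `y`, of dimension `d + e`,
where `d` is the sum of the `d i`; `V i` linear systems on `X` with `PowerfulSystems`, whose images
define a rational map of `X` to a variety `Y` of dimension `d`. Let the discrepancies of `(X, Δ)` along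
the divisors over `X` which dominate `Y` be nonnegative, and let the geometric generic fibre of `X`
over `Y` be a product of superelliptic curves as in `SuperellipticFibres`. Then
`κ(K_X + Δ) = ν(K_X + Δ)`, equal to `-∞` if `W j < 2` for some `j`, and otherwise equal to `d` plus the
number of the `j` with `W j > 2`. -/
theorem result (c e N : ℕ) (d k : Fin c → ℕ) (K : Type) [Field K] [Algebra ℂ K]
    (y : Fin (N + 1) → K) (Δ : Place ℂ K → ℚ) (hy : IsPair y (∑ i, d i + e) Δ)
    (V : Fin c → Submodule ℂ K) (hV : PowerfulSystems y Δ d k V)
    (hc : CanonicalOver y (∑ i, d i + e) Δ (ImageField V c))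
    (W : Fin e → ℚ) (hW : SuperellipticFibres (ImageField V c) W) :
    Abundance y (∑ i, d i + e) (∑ i, d i) Δ W := by
  obtain ⟨K', _, _, _, _, α, hα, hαt, m, G, x, z, ⟨hxz, hx, hgen⟩, hW⟩ := hW
  have hαK : IsAlgebraic K α := by
    have h1 : ∀ z ∈ Up K' (ImageField V c), ∃ a : K, algebraMap K K' a = z := by
      intro z hz
      unfold Up at hz
      rw [IntermediateField.mem_map] at hz
      obtain ⟨a, -, ha⟩ := hz
      exact ⟨a, ha⟩
    obtain ⟨p, hp0, hp⟩ := hα
    obtain ⟨p', hp'⟩ : ∃ p' : Polynomial K, p'.map (algebraMap K K') =
        p.map (algebraMap (Up K' (ImageField V c)) K') := by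
      refine (Polynomial.mem_lifts _).1 ((Polynomial.lifts_iff_coeff_lifts _).2 fun i => ?_)
      rw [Polynomial.coeff_map]
      obtain ⟨a, ha⟩ := h1 _ (p.coeff i).2
      exact ⟨a, ha⟩
    refine ⟨p', ?_, ?_⟩
    · rintro rfl
      rw [Polynomial.map_zero] at hp'
      exact hp0 ((Polynomial.map_eq_zero _).1 hp'.symm)
    · rw [← Polynomial.eval_map_algebraMap, hp', Polynomial.eval_map_algebraMap]
      exact hp
  have hfin : FiniteDimensional K K' := by
    have h1 : FiniteDimensional K (IntermediateField.adjoin K {α}) :=
      IntermediateField.adjoin.finiteDimensional hαK.isIntegral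
    rw [hαt] at h1
    exact Module.Finite.of_surjective
      (IntermediateField.topEquiv : (⊤ : IntermediateField K K') ≃ₐ[K] K').toLinearMap
      (IntermediateField.topEquiv).surjective
  have htop : ∀ z : K', ∃ p : Polynomial K, z = Polynomial.aeval α p := by
    intro z
    have h1 : z ∈ IntermediateField.adjoin K {α} := by
      rw [hαt]
      trivial
    rw [← IntermediateField.mem_toSubalgebra,
      IntermediateField.adjoin_simple_toSubalgebra_of_isAlgebraic hαK,
      Algebra.adjoin_singleton_eq_range_aeval] at h1
    obtain ⟨p, hp⟩ := h1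
    exact ⟨p, hp.symm⟩
  obtain ⟨Δ', hΔ', hmem⟩ := hV.members
  have hS : Pool.Agent.Q298.JS.Sys (∑ i, d i + e) {P | IsPrimeDivisor y P} d k V
      (fun i P => (Δ' i P : ℝ)) := by
    refine ⟨hV.pos, hV.dim, hV.rank, hV.nondegenerate, fun i => ?_⟩
    obtain ⟨q, φ, R, σ, h1, h2, h3, h4, h5, h6⟩ := hmem i
    refine ⟨q, φ, R, σ, h1, h2, h3, h4, by exact_mod_cast h5, fun P hP _ a ha hb hc => ?_⟩
    obtain ⟨j, hj⟩ := h6 P hP a ha hb hc
    refine ⟨j, ?_⟩
    exact_mod_cast hj
  have hmain := Pool.Agent.Q298.JS.cycg_gen hy.1 hy.2.1 hy.2.2 (L := ImageField V c) hS.top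
    (fun lam hF => hS.main hy.2.1 (fun i P hP => by exact_mod_cast (hΔ' P hP).1 i)
      (fun P hP => by
        have h1 := (hΔ' P hP).2
        have h2 : (∑ i, (Δ' i P : ℝ)) ≤ (Δ P : ℝ) := by exact_mod_cast h1
        rw [add_zero]
        exact h2) hF) hc
    (K' := K') (α := α) hα htop hx (fun j => (hxz j).1) (fun j => (hxz j).2.1)
    (fun j => (hxz j).2.2) hgen
  obtain rfl : (fun j => weight (m j) (G j)) = W := funext hW
  exact hmain

end Pool.Agent.Results.MP_c2a5fc_ag.SeveralSystemsSuperelliptic
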