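import Pool.Agent.Y174.H3

/-!
MP_c2a5fc_ag, Q1: abundance for quotients of varieties of maximal Albanese dimension by finite groups
whose action on a space of regular 1-forms satisfies the condition of Reid and Tai.

Let `Z` be a projective manifold of dimension `n` with function field `L` and `G` a finite group of
automorphisms of `L` (birational automorphisms of `Z`). Let `W` be a `G`-invariant vector space of
regular 1-forms on `Z` which generates the cotangent space at the generic point, so that `Z` has
maximal Albanese dimension. `ReidTai`: if `g ≠ 1` is in the inertia group of a prime divisor over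
`Z`, and `η 1, ..., η n` in `W` are eigenforms of `g`, independent at the generic point, with
eigenvalues `ζ ^ a i`, `0 ≤ a i < d = ord g`, then `a 1 + ... + a n > d`. The condition only
concerns the representation of `G` on `W`, not the cotangent spaces at the fixed points: the forms
may have common zeros, `G` may act with fixed points of any kind, and the canonical class of a
smooth model of `Z / G` need not be computed by the one of the quotient of a smooth model of `Z`.

Then `κ (Z / G) = κ (Z) ≥ 0` and `ν (Z / G) ≤ ν (Z)`. For varieties `Z` of maximal Albanese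
dimension `κ (Z) = ν (Z)` is a theorem of Kawamata, hence `κ (X) = ν (X)` for all projective
manifolds `X` birational to `Z / G`.
-/

set_option autoImplicit false
set_option linter.overlappingInstances false

open FF IntermediateField Pool.Agent.W619.PQ Pool.Agent.W619.TW Pool.Agent.W619.Y Pool.Agent.Y174

namespace Pool.Agent.Results.MP_c2a5fc_ag.TerminalQuotients

/-- The 1-form `η` on the variety of dimension `n` with function field `L` is regular: along each
prime divisor `w` over the variety it takes the vector fields which are regular along `w` to
functions which are regular along `w`. -/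
def Regular {L : Type} [Field L] [Algebra ℂ L] (n : ℕ) (η : Derivation ℂ L L →ₗ[L] L) : Prop :=
  ∀ w : Place ℂ L, IsDivisorial w n → ∀ D : Derivation ℂ L L, (∀ f, w.Reg f → w.Reg (D f)) →
    w.Reg (η D)

/-- Let `Z` be a projective manifold of dimension `n` with function field `L`, `G` a finite group of
birational automorphisms of `Z`, `W` a `G`-invariant space of regular 1-forms which generates the
cotangent space at the generic point of `Z`, such that the action of `G` on `W` satisfies the
condition of Reid and Tai for terminal quotients. Then `κ (Z / G) ≥ 0`, `κ (Z / G) ≥ a` if and only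
if `κ (Z) ≥ a`, and `ν (Z) ≤ a` implies `ν (Z / G) ≤ a`. In particular, if `κ (Z) ≥ a` and
`ν (Z) ≤ a`, then `κ (X) = ν (X) = a` for every projective manifold `X` birational to `Z / G`. -/
theorem result (n : ℕ) (L : Type) [Field L] [Algebra ℂ L] [Algebra.EssFiniteType ℂ L]
    (hn : Algebra.trdeg ℂ L = n) (G : Subgroup (L ≃ₐ[ℂ] L)) [Finite G]
    (W : Submodule ℂ (Derivation ℂ L L →ₗ[L] L)) (hreg : ∀ η ∈ W, Regular n η)
    (hspan : Submodule.span L (W : Set (Derivation ℂ L L →ₗ[L] L)) = ⊤)
    (hG : ∀ g ∈ G, ∀ η ∈ W, gForm g η ∈ W) (hRT : ReidTai n G W) :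
    KodTr ℂ (fixedField G) n 0 ∧
    (∀ a, KodTr ℂ (fixedField G) n a ↔ KodTr ℂ L n a) ∧
    (∀ a, NumLe ℂ L n (fun _ => False) a → NumLe ℂ (fixedField G) n (fun _ => False) a) ∧
    ∀ a, KodTr ℂ L n a → NumLe ℂ L n (fun _ => False) a →
      KodTr ℂ (fixedField G) n a ∧ NumLe ℂ (fixedField G) n (fun _ => False) a := by
  obtain ⟨-, h2, h3, h4⟩ := main4 hn ‹_› G (W := W)
    (fun η hη w hw D hD => hreg η hη w hw D fun f hf => hD f hf) hspan hG hRT
  exact ⟨h2, h3, h4, fun a h5 h6 => ⟨(h3 a).2 h5, h4 a h6⟩⟩

end Pool.Agent.Results.MP_c2a5fc_ag.TerminalQuotients
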